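import Pool.Agent.X194.Champ.Final

/-!
# MP_3b2897_nt: weak pair correlations for the binary Champernowne doubling orbit
-/

namespace Pool.Agent.Results.MP_3b2897_nt.WeakPairCorrelation

open Finset Filter Topology Pool.Agent.X194.Champ

/-! ### definitions of the statement -/

/-- the binary Champernowne constant `0.1 10 11 100 101 …` in base 2 (`digit n` is the `n`-th
digit, `n = 0, 1, …`, of the concatenation of the binary expansions of `1, 2, 3, …`) -/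
noncomputable def alpha : ℝ := ∑' n : ℕ, (digit n : ℝ) / 2 ^ (n + 1)

/-- `x_n = {2^n α}` -/
noncomputable def x (n : ℕ) : ℝ := Int.fract (2 ^ n * alpha)

/-- distance to the nearest integer -/
noncomputable def nd (t : ℝ) : ℝ := |t - round t|

open Classical in
/-- `R_N(s, β)`, the number of pairs `l ≠ m` in `{1, …, N}` with `‖x_l - x_m‖ ≤ s N^{-β}` -/
noncomputable def R (N : ℕ) (s β : ℝ) : ℕ :=
  ((Icc 1 N ×ˢ Icc 1 N).filter fun p => p.1 ≠ p.2 ∧ nd (x p.1 - x p.2) ≤ s * (N : ℝ) ^ (-β)).card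

/-- the limit relation with the exponent `β` -/
def Corr (β : ℝ) : Prop :=
  ∀ s : ℝ, 0 ≤ s → Tendsto (fun N : ℕ => (N : ℝ) ^ (β - 2) * (R N s β : ℝ)) atTop (𝓝 (2 * s))

/-! ### tails of the expansion -/

/-- the number with binary digits `digit l, digit (l+1), …` -/
noncomputable def T (l : ℕ) : ℝ := ∑' i : ℕ, (digit (l + i) : ℝ) / 2 ^ (i + 1)

lemma summ (l : ℕ) : Summable fun i : ℕ => (digit (l + i) : ℝ) / 2 ^ (i + 1) := by
  refine Summable.of_nonneg_of_le (fun i => by positivity) (fun i => ?_)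
    (summable_geometric_two' (1 : ℝ))
  have h : (digit (l + i) : ℝ) ≤ 1 := by exact_mod_cast digit_le _
  calc (digit (l + i) : ℝ) / 2 ^ (i + 1) ≤ 1 / 2 ^ (i + 1) :=
        div_le_div_of_nonneg_right h (by positivity)
    _ = 1 / 2 / 2 ^ i := by rw [pow_succ]; field_simp

lemma T_nonneg (l : ℕ) : 0 ≤ T l := tsum_nonneg fun i => by positivity

lemma T_le (l : ℕ) : T l ≤ 1 := by
  have h2 := tsum_geometric_two' (1 : ℝ)
  unfold T
  rw [← h2]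
  refine Summable.tsum_le_tsum (fun i => ?_) (summ l) (summable_geometric_two' (1 : ℝ))
  have h : (digit (l + i) : ℝ) ≤ 1 := by exact_mod_cast digit_le _
  calc (digit (l + i) : ℝ) / 2 ^ (i + 1) ≤ 1 / 2 ^ (i + 1) :=
        div_le_div_of_nonneg_right h (by positivity)
    _ = 1 / 2 / 2 ^ i := by rw [pow_succ]; field_simp

lemma two_T (l : ℕ) : 2 * T l = digit l + T (l + 1) := by
  unfold T
  rw [(summ l).tsum_eq_zero_add, mul_add, ← tsum_mul_left]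
  congr 1
  · simp only [add_zero, zero_add, pow_one]
    ring
  · apply tsum_congr
    intro i
    rw [show l + (i + 1) = l + 1 + i by ring, pow_succ 2 (i + 1)]
    field_simp

lemma pow_T (ℓ l : ℕ) : 2 ^ ℓ * T l = W ℓ l + T (l + ℓ) := by
  induction ℓ with
  | zero => simp [W]
  | succ ℓ ih =>
    rw [pow_succ', mul_assoc, ih, mul_add, two_T, W]
    push_cast
    rw [add_assoc l ℓ 1]
    ring

lemma alpha_eq : alpha = T 0 := by simp [alpha, T]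

lemma x_eq (n : ℕ) : ∃ z : ℤ, x n = T n + z := by
  refine ⟨W n 0 - ⌊2 ^ n * alpha⌋, ?_⟩
  unfold x Int.fract
  rw [alpha_eq, pow_T, zero_add]
  push_cast
  ring

lemma nd_le (t : ℝ) (z : ℤ) : nd t ≤ |t - z| := round_le t z

/-! ### counting pairs -/

section Pairs

variable (N ℓ : ℕ)

/-- pairs of windows with prescribed difference modulo `2^ℓ` -/
def Cset (t : ℤ) : Finset (ℕ × ℕ) :=
  (Icc 1 N ×ˢ Icc 1 N).filter fun p => ((W ℓ p.1 : ℕ) : ZMod (2 ^ ℓ)) = (W ℓ p.2 : ℕ) + (t : ZMod (2 ^ ℓ))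

/-- multiplicity of a window value -/
def n (w : ZMod (2 ^ ℓ)) : ℝ := ((Icc 1 N).filter fun l => ((W ℓ l : ℕ) : ZMod (2 ^ ℓ)) = w).card

lemma card_Cset (t : ℤ) : ((Cset N ℓ t).card : ℝ) = ∑ w : ZMod (2 ^ ℓ), n N ℓ (w + t) * n N ℓ w := by
  have h : (Cset N ℓ t).card = ∑ w : ZMod (2 ^ ℓ),
      ((Icc 1 N).filter fun l => ((W ℓ l : ℕ) : ZMod (2 ^ ℓ)) = w + t).card
      * ((Icc 1 N).filter fun l => ((W ℓ l : ℕ) : ZMod (2 ^ ℓ)) = w).card := by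
    rw [Cset, card_eq_sum_card_fiberwise (f := fun p : ℕ × ℕ => ((W ℓ p.2 : ℕ) : ZMod (2 ^ ℓ)))
      (t := univ) (fun _ _ => by simp)]
    apply sum_congr rfl
    intro w _
    rw [← card_product]
    congr 1
    ext p
    simp only [mem_filter, mem_product]
    constructor
    · rintro ⟨⟨⟨h1, h2⟩, h3⟩, h4⟩
      exact ⟨⟨h1, by rw [h3, h4]⟩, h2, h4⟩
    · rintro ⟨⟨h1, h2⟩, h3, h4⟩
      exact ⟨⟨⟨h1, h3⟩, by rw [h2, h4]⟩, h4⟩
  rw [h]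
  push_cast
  rfl

lemma sum_n : ∑ w : ZMod (2 ^ ℓ), n N ℓ w = N := by
  have h := card_eq_sum_card_fiberwise (s := Icc 1 N)
    (f := fun l : ℕ => ((W ℓ l : ℕ) : ZMod (2 ^ ℓ))) (t := univ) (fun _ _ => by simp)
  unfold n
  rw [Nat.card_Icc, Nat.add_sub_cancel] at h
  exact_mod_cast h.symm

lemma card_Cset_zero : (Cset N ℓ 0).card
    = ((Icc 1 N ×ˢ Icc 1 N).filter fun p => W ℓ p.1 = W ℓ p.2).card := by
  unfold Cset
  congr 1
  apply filter_congr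
  intro p _
  rw [Int.cast_zero, add_zero, ZMod.natCast_eq_natCast_iff', Nat.mod_eq_of_lt (W_lt _ _),
    Nat.mod_eq_of_lt (W_lt _ _)]

lemma shift_sum (f : ZMod (2 ^ ℓ) → ℝ) (t : ℤ) :
    ∑ w : ZMod (2 ^ ℓ), f (w + t) = ∑ w : ZMod (2 ^ ℓ), f w :=
  Fintype.sum_equiv (Equiv.addRight (t : ZMod (2 ^ ℓ))) _ _ (fun _ => rfl)

lemma Cset_le (t : ℤ) : ((Cset N ℓ t).card : ℝ) ≤ (Cset N ℓ 0).card := by
  rw [card_Cset, card_Cset]
  have h1 : ∑ w : ZMod (2 ^ ℓ), n N ℓ (w + t) * n N ℓ w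
      ≤ ∑ w : ZMod (2 ^ ℓ), ((n N ℓ (w + t)) ^ 2 + (n N ℓ w) ^ 2) / 2 := by
    apply sum_le_sum
    intro w _
    nlinarith [sq_nonneg (n N ℓ (w + t) - n N ℓ w)]
  refine h1.trans (le_of_eq ?_)
  rw [← sum_div, sum_add_distrib, shift_sum ℓ (fun w => (n N ℓ w) ^ 2) t]
  simp only [Int.cast_zero, add_zero]
  rw [← two_mul, mul_div_cancel_left₀ _ (two_ne_zero)]
  apply sum_congr rfl
  intro w _
  ring

lemma le_Cset (t : ℤ) :
    2 * ((N : ℝ) ^ 2 / 2 ^ ℓ) - (Cset N ℓ 0).card ≤ ((Cset N ℓ t).card : ℝ) := by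
  have h0 : 0 ≤ ∑ w : ZMod (2 ^ ℓ), (n N ℓ (w + t) + n N ℓ w - 2 * (N / 2 ^ ℓ)) ^ 2 :=
    sum_nonneg fun w _ => sq_nonneg _
  have h1 : ∑ w : ZMod (2 ^ ℓ), (n N ℓ (w + t) + n N ℓ w - 2 * (N / 2 ^ ℓ)) ^ 2
      = ∑ w : ZMod (2 ^ ℓ), (n N ℓ (w + t)) ^ 2 + ∑ w : ZMod (2 ^ ℓ), (n N ℓ w) ^ 2
        + 2 * ∑ w : ZMod (2 ^ ℓ), n N ℓ (w + t) * n N ℓ w
        + ∑ w : ZMod (2 ^ ℓ), 4 * ((N : ℝ) / 2 ^ ℓ) ^ 2
        - 4 * (N / 2 ^ ℓ) * ∑ w : ZMod (2 ^ ℓ), n N ℓ (w + t)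
        - 4 * (N / 2 ^ ℓ) * ∑ w : ZMod (2 ^ ℓ), n N ℓ w := by
    rw [mul_sum, mul_sum, mul_sum, ← sum_add_distrib, ← sum_add_distrib, ← sum_add_distrib,
      ← sum_sub_distrib, ← sum_sub_distrib]
    apply sum_congr rfl
    intro w _
    ring
  have h2 : ∑ w : ZMod (2 ^ ℓ), (n N ℓ w) ^ 2 = (Cset N ℓ 0).card := by
    rw [card_Cset]
    apply sum_congr rfl
    intro w _
    simp only [Int.cast_zero, add_zero]
    ring
  rw [h1, shift_sum ℓ (fun w => (n N ℓ w) ^ 2) t, shift_sum ℓ (fun w => n N ℓ w) t, sum_n, h2,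
    ← card_Cset, sum_const, card_univ, ZMod.card, nsmul_eq_mul] at h0
  push_cast at h0
  have hL : (0 : ℝ) < 2 ^ ℓ := by positivity
  have e1 : (2 : ℝ) ^ ℓ * (4 * ((N : ℝ) / 2 ^ ℓ) ^ 2) = 4 * ((N : ℝ) ^ 2 / 2 ^ ℓ) := by
    field_simp
  have e2 : 4 * ((N : ℝ) / 2 ^ ℓ) * N = 4 * ((N : ℝ) ^ 2 / 2 ^ ℓ) := by ring
  rw [e1, e2] at h0
  linarith

end Pairs

/-- difference of windows and difference of points -/
lemma T_sub (ℓ l m : ℕ) : |2 ^ ℓ * (T l - T m) - ((W ℓ l : ℝ) - W ℓ m)| ≤ 1 := by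
  rw [mul_sub, pow_T, pow_T, abs_le]
  have h1 := T_nonneg (l + ℓ)
  have h2 := T_le (l + ℓ)
  have h3 := T_nonneg (m + ℓ)
  have h4 := T_le (m + ℓ)
  constructor <;> linarith

open Classical in
/-- the pairs at distance at most `d` -/
noncomputable def D (N : ℕ) (d : ℝ) : Finset (ℕ × ℕ) :=
  (Icc 1 N ×ˢ Icc 1 N).filter fun p => nd (x p.1 - x p.2) ≤ d

lemma D_subset {N ℓ : ℕ} {d : ℝ} {J : ℕ} (hJ : d * 2 ^ ℓ + 1 < J + 1) :
    D N d ⊆ (Icc (-(J : ℤ)) J).biUnion fun t => Cset N ℓ t := by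
  intro p hp
  unfold D at hp
  rw [mem_filter] at hp
  obtain ⟨z1, hz1⟩ := x_eq p.1
  obtain ⟨z2, hz2⟩ := x_eq p.2
  obtain ⟨z, hz⟩ : ∃ z : ℤ, |T p.1 - T p.2 - z| ≤ d := by
    refine ⟨round (x p.1 - x p.2) - z1 + z2, ?_⟩
    have h1 := hp.2
    unfold nd at h1
    have e : T p.1 - T p.2 - ((round (x p.1 - x p.2) - z1 + z2 : ℤ) : ℝ)
        = x p.1 - x p.2 - round (x p.1 - x p.2) := by
      push_cast
      rw [hz1, hz2]
      ring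
    rw [e]
    exact h1
  have hL : (0 : ℝ) < 2 ^ ℓ := by positivity
  set t : ℤ := (W ℓ p.1 : ℤ) - W ℓ p.2 - z * 2 ^ ℓ with ht
  have ht1 : |(t : ℝ)| < J + 1 := by
    have h1 := T_sub ℓ p.1 p.2
    have h2 : |2 ^ ℓ * (T p.1 - T p.2 - z)| ≤ d * 2 ^ ℓ := by
      rw [abs_mul, abs_of_pos hL, mul_comm]
      exact mul_le_mul_of_nonneg_right hz hL.le
    have e : (t : ℝ) = 2 ^ ℓ * (T p.1 - T p.2 - z)
        - (2 ^ ℓ * (T p.1 - T p.2) - ((W ℓ p.1 : ℝ) - W ℓ p.2)) := by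
      rw [ht]
      push_cast
      ring
    rw [e]
    refine lt_of_le_of_lt (abs_sub _ _) ?_
    linarith
  rw [mem_biUnion]
  refine ⟨t, ?_, ?_⟩
  · rw [abs_lt] at ht1
    rw [mem_Icc]
    have h1 : -((J : ℤ) + 1) < t := by exact_mod_cast ht1.1
    have h2 : t < (J : ℤ) + 1 := by exact_mod_cast ht1.2
    omega
  · unfold Cset
    rw [mem_filter]
    refine ⟨hp.1, ?_⟩
    rw [ht]
    push_cast
    have : ((2 : ZMod (2 ^ ℓ)) ^ ℓ) = 0 := by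
      have := ZMod.natCast_self (2 ^ ℓ)
      push_cast at this
      exact this
    rw [this]
    ring

lemma Cset_subset {N ℓ : ℕ} {d : ℝ} {J : ℕ} (hJ : (J : ℝ) + 1 ≤ d * 2 ^ ℓ) {t : ℤ}
    (ht : t ∈ Icc (-(J : ℤ)) J) : Cset N ℓ t ⊆ D N d := by
  intro p hp
  unfold Cset at hp
  rw [mem_filter] at hp
  unfold D
  rw [mem_filter]
  refine ⟨hp.1, ?_⟩
  have hL : (0 : ℝ) < 2 ^ ℓ := by positivity
  obtain ⟨z, hz⟩ : ∃ z : ℤ, (W ℓ p.1 : ℤ) - W ℓ p.2 - t = 2 ^ ℓ * z := by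
    have h1 : (((W ℓ p.1 : ℤ) - W ℓ p.2 - t : ℤ) : ZMod (2 ^ ℓ)) = 0 := by
      push_cast
      rw [hp.2]
      ring
    rw [ZMod.intCast_zmod_eq_zero_iff_dvd] at h1
    obtain ⟨z, hz⟩ := h1
    exact ⟨z, by rw [hz]; push_cast; ring⟩
  obtain ⟨z1, hz1⟩ := x_eq p.1
  obtain ⟨z2, hz2⟩ := x_eq p.2
  refine (nd_le _ (z + z1 - z2)).trans ?_
  have e : x p.1 - x p.2 - ((z + z1 - z2 : ℤ) : ℝ) = T p.1 - T p.2 - z := by
    rw [hz1, hz2]
    push_cast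
    ring
  rw [e]
  have h1 := T_sub ℓ p.1 p.2
  have hz' : (W ℓ p.1 : ℝ) - W ℓ p.2 - t = 2 ^ ℓ * z := by exact_mod_cast hz
  have h2 : 2 ^ ℓ * (T p.1 - T p.2 - z)
      = (2 ^ ℓ * (T p.1 - T p.2) - ((W ℓ p.1 : ℝ) - W ℓ p.2)) + t := by
    rw [mul_sub _ _ (z : ℝ), ← hz']
    ring
  have h3 : |(t : ℝ)| ≤ J := by
    rw [mem_Icc] at ht
    rw [abs_le]
    constructor
    · exact_mod_cast ht.1
    · exact_mod_cast ht.2
  have h4 : 2 ^ ℓ * |T p.1 - T p.2 - z| ≤ 2 ^ ℓ * d := by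
    have h5 : 2 ^ ℓ * |T p.1 - T p.2 - z| = |2 ^ ℓ * (T p.1 - T p.2 - z)| := by
      rw [abs_mul, abs_of_pos hL]
    rw [h5, h2]
    refine (abs_add_le _ _).trans ?_
    linarith
  exact le_of_mul_le_mul_left h4 hL

lemma Cset_disjoint {N ℓ J : ℕ} (hJ : 2 * J + 1 ≤ 2 ^ ℓ) :
    ((Icc (-(J : ℤ)) J : Finset ℤ) : Set ℤ).PairwiseDisjoint fun t => Cset N ℓ t := by
  intro t ht t' ht' hne
  rw [Function.onFun, disjoint_left]
  intro p hp hp'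
  unfold Cset at hp hp'
  rw [mem_filter] at hp hp'
  have h1 : ((t - t' : ℤ) : ZMod (2 ^ ℓ)) = 0 := by
    have h2 := hp.2.symm.trans hp'.2
    have h3 := add_left_cancel h2
    push_cast
    rw [h3, sub_self]
  rw [ZMod.intCast_zmod_eq_zero_iff_dvd] at h1
  rw [mem_coe, mem_Icc] at ht ht'
  have h4 : |t - t'| < ((2 ^ ℓ : ℕ) : ℤ) := by
    rw [abs_lt]
    have h5 : (2 * J + 1 : ℤ) ≤ ((2 ^ ℓ : ℕ) : ℤ) := by exact_mod_cast hJ
    constructor <;> omega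
  have h6 := Int.eq_zero_of_abs_lt_dvd h1 h4
  omega

lemma nd_zero : nd 0 = 0 := by simp [nd]

lemma card_D_le {N : ℕ} {s β : ℝ} : (D N (s * (N : ℝ) ^ (-β))).card ≤ R N s β + N := by
  classical
  have h : D N (s * (N : ℝ) ^ (-β)) ⊆ ((Icc 1 N ×ˢ Icc 1 N).filter fun p => p.1 ≠ p.2 ∧
      nd (x p.1 - x p.2) ≤ s * (N : ℝ) ^ (-β)) ∪ (Icc 1 N).image fun l => (l, l) := by
    intro p hp
    unfold D at hp
    rw [mem_filter] at hp
    rw [mem_union]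
    by_cases hne : p.1 = p.2
    · right
      rw [mem_image]
      exact ⟨p.1, (mem_product.1 hp.1).1, Prod.ext rfl hne⟩
    · left
      rw [mem_filter]
      exact ⟨hp.1, hne, hp.2⟩
  refine (card_le_card h).trans ((card_union_le _ _).trans ?_)
  apply Nat.add_le_add
  · apply le_of_eq
    unfold R
    congr
  · refine card_image_le.trans ?_
    simp

lemma R_le_card {N : ℕ} {s β : ℝ} : R N s β ≤ (D N (s * (N : ℝ) ^ (-β))).card := by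
  classical
  unfold R D
  apply card_le_card
  intro p hp
  rw [mem_filter] at hp ⊢
  exact ⟨hp.1, hp.2.2⟩

/-- upper bound -/
lemma card_D_upper {N ℓ : ℕ} {d : ℝ} (hd : 0 ≤ d) :
    ((D N d).card : ℝ) ≤ (2 * (d * 2 ^ ℓ) + 3) * (Cset N ℓ 0).card := by
  have hL : (0 : ℝ) < 2 ^ ℓ := by positivity
  set J : ℕ := ⌊d * 2 ^ ℓ + 1⌋₊ with hJ
  have h1 : d * 2 ^ ℓ + 1 < J + 1 := Nat.lt_floor_add_one _
  have h2 : (J : ℝ) ≤ d * 2 ^ ℓ + 1 := Nat.floor_le (by positivity)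
  have h3 : ((D N d).card : ℝ) ≤ ∑ t ∈ Icc (-(J : ℤ)) J, ((Cset N ℓ t).card : ℝ) := by
    exact_mod_cast (card_le_card (D_subset h1)).trans card_biUnion_le
  refine h3.trans ((sum_le_card_nsmul _ _ _ (fun t _ => Cset_le N ℓ t)).trans ?_)
  rw [Int.card_Icc, nsmul_eq_mul]
  apply mul_le_mul_of_nonneg_right _ (Nat.cast_nonneg _)
  have e : ((J : ℤ) + 1 - -(J : ℤ)).toNat = 2 * J + 1 := by omega
  rw [e]
  push_cast
  linarith

/-- lower bound -/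
lemma card_D_lower {N ℓ : ℕ} {d : ℝ} (hd2 : d ≤ 1 / 2)
    (hpos : 0 ≤ 2 * ((N : ℝ) ^ 2 / 2 ^ ℓ) - (Cset N ℓ 0).card) :
    (2 * (d * 2 ^ ℓ) - 3) * (2 * ((N : ℝ) ^ 2 / 2 ^ ℓ) - (Cset N ℓ 0).card)
      ≤ ((D N d).card : ℝ) := by
  have hL : (0 : ℝ) < 2 ^ ℓ := by positivity
  rcases lt_or_ge (d * 2 ^ ℓ) 1 with h | h
  · have h1 : (2 * (d * 2 ^ ℓ) - 3) * (2 * ((N : ℝ) ^ 2 / 2 ^ ℓ) - (Cset N ℓ 0).card) ≤ 0 :=
      mul_nonpos_of_nonpos_of_nonneg (by linarith) hpos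
    exact h1.trans (Nat.cast_nonneg _)
  · set J : ℕ := ⌊d * 2 ^ ℓ - 1⌋₊ with hJ
    have h1 : d * 2 ^ ℓ - 1 < J + 1 := Nat.lt_floor_add_one _
    have h2 : (J : ℝ) ≤ d * 2 ^ ℓ - 1 := Nat.floor_le (by linarith)
    have h3 : 2 * J + 1 ≤ 2 ^ ℓ := by
      have h4 : (2 * J + 1 : ℝ) ≤ 2 ^ ℓ := by nlinarith
      exact_mod_cast h4
    have h4 : (Icc (-(J : ℤ)) J).biUnion (fun t => Cset N ℓ t) ⊆ D N d := by
      intro p hp
      rw [mem_biUnion] at hp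
      obtain ⟨t, ht, hp⟩ := hp
      exact Cset_subset (by linarith) ht hp
    have h5 : ∑ t ∈ Icc (-(J : ℤ)) J, ((Cset N ℓ t).card : ℝ) ≤ (D N d).card := by
      have := card_le_card h4
      rw [card_biUnion (Cset_disjoint h3)] at this
      exact_mod_cast this
    refine le_trans ?_ h5
    have h6 := card_nsmul_le_sum (Icc (-(J : ℤ)) J) (fun t => ((Cset N ℓ t).card : ℝ)) _
      (fun t _ => le_Cset N ℓ t)
    refine le_trans ?_ h6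
    rw [Int.card_Icc, nsmul_eq_mul]
    apply mul_le_mul_of_nonneg_right _ hpos
    have e : ((J : ℤ) + 1 - -(J : ℤ)).toNat = 2 * J + 1 := by omega
    rw [e]
    push_cast
    linarith

/-- the estimate for given parameters -/
lemma main_est {β s η A : ℝ} (hβ : 0 < β) (hβ4 : β < 1 / 4) (hs : 0 ≤ s) (hη : 0 < η)
    (hη1 : η < 1) (hA : 1 ≤ A) : ∀ᶠ N : ℕ in atTop,
    (N : ℝ) ^ (β - 2) * (R N s β : ℝ) ≤ (1 + η) * (2 * s + 3 / A) ∧
    (1 - η) * (2 * s - 3 / A) - (N : ℝ) ^ (β - 1) ≤ (N : ℝ) ^ (β - 2) * (R N s β : ℝ) := by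
  obtain ⟨N0, hN0⟩ := second_moment hη
  have t1 : Tendsto (fun N : ℕ => (N : ℝ) ^ (1 - 4 * β)) atTop atTop :=
    (tendsto_rpow_atTop (by linarith)).comp tendsto_natCast_atTop_atTop
  have t2 : Tendsto (fun N : ℕ => s * (N : ℝ) ^ (-β)) atTop (𝓝 (s * 0)) :=
    ((tendsto_rpow_neg_atTop hβ).comp tendsto_natCast_atTop_atTop).const_mul s
  rw [mul_zero] at t2
  filter_upwards [eventually_ge_atTop N0, eventually_ge_atTop 1,
    t1.eventually_ge_atTop ((2 * A) ^ 4), t2.eventually (gt_mem_nhds (by norm_num : (0 : ℝ) < 1 / 2))]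
    with N h0 h1 h2 h3
  have hN : (1 : ℝ) ≤ N := by exact_mod_cast h1
  have hNpos : (0 : ℝ) < N := by linarith
  have hNβ : 1 ≤ (N : ℝ) ^ β := Real.one_le_rpow hN hβ.le
  have hNβpos : 0 < (N : ℝ) ^ β := by linarith
  obtain ⟨k, hk1, hk2⟩ := exists_nat_pow_near (x := A * (N : ℝ) ^ β) (y := 2)
    (by nlinarith) (by norm_num)
  set ℓ := k + 1 with hℓ
  have hL : (0 : ℝ) < 2 ^ ℓ := by positivity
  have hup : (2 : ℝ) ^ ℓ ≤ 2 * A * (N : ℝ) ^ β := by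
    rw [hℓ, pow_succ]
    linarith
  have hcond : 2 ^ (4 * ℓ) ≤ N := by
    have h4 : ((2 : ℝ) ^ ℓ) ^ 4 ≤ (2 * A * (N : ℝ) ^ β) ^ 4 := pow_le_pow_left₀ hL.le hup 4
    have h5 : (2 * A * (N : ℝ) ^ β) ^ 4 = (2 * A) ^ 4 * (N : ℝ) ^ (4 * β) := by
      rw [mul_pow, ← Real.rpow_natCast ((N : ℝ) ^ β) 4, ← Real.rpow_mul hNpos.le]
      congr 2
      push_cast
      ring
    have h6 : (2 * A) ^ 4 * (N : ℝ) ^ (4 * β) ≤ N := by
      calc (2 * A) ^ 4 * (N : ℝ) ^ (4 * β) ≤ (N : ℝ) ^ (1 - 4 * β) * (N : ℝ) ^ (4 * β) :=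
            mul_le_mul_of_nonneg_right h2 (by positivity)
        _ = N := by rw [← Real.rpow_add hNpos]; simp
    have h7 : ((2 : ℝ) ^ (4 * ℓ)) ≤ N := by
      rw [mul_comm, pow_mul]
      exact h4.trans (h5.le.trans h6)
    exact_mod_cast h7
  have hP := hN0 N h0 ℓ hcond
  rw [← card_Cset_zero] at hP
  set P : ℝ := ((Cset N ℓ 0).card : ℝ) with hPdef
  have hP1 : P ≤ (1 + η) * ((N : ℝ) ^ 2 / 2 ^ ℓ) := by
    rw [mul_div_assoc', le_div_iff₀ hL]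
    linarith
  have hNL : 0 ≤ (N : ℝ) ^ 2 / 2 ^ ℓ := by positivity
  have hP2 : (1 - η) * ((N : ℝ) ^ 2 / 2 ^ ℓ) ≤ 2 * ((N : ℝ) ^ 2 / 2 ^ ℓ) - P := by linarith
  have hP3 : 0 ≤ 2 * ((N : ℝ) ^ 2 / 2 ^ ℓ) - P :=
    le_trans (mul_nonneg (by linarith) hNL) hP2
  set d : ℝ := s * (N : ℝ) ^ (-β) with hd
  have hd0 : 0 ≤ d := by positivity
  -- common identities
  have hNβ2 : (N : ℝ) ^ (β - 2) * (N : ℝ) ^ 2 = (N : ℝ) ^ β := by
    rw [← Real.rpow_natCast (N : ℝ) 2, ← Real.rpow_add hNpos]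
    congr 1
    push_cast
    ring
  have hNβ1 : (N : ℝ) ^ (β - 2) * N = (N : ℝ) ^ (β - 1) := by
    nth_rw 2 [← Real.rpow_one (N : ℝ)]
    rw [← Real.rpow_add hNpos]
    congr 1
    ring
  have hdN : (N : ℝ) ^ β * d = s := by
    rw [hd, mul_comm s, ← mul_assoc, ← Real.rpow_add hNpos]
    simp
  have hq : (N : ℝ) ^ β / 2 ^ ℓ ≤ 1 / A := by
    rw [div_le_div_iff₀ hL (by linarith)]
    linarith
  have hq0 : 0 ≤ (N : ℝ) ^ β / 2 ^ ℓ := by positivity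
  have hc0 : 0 ≤ (N : ℝ) ^ (β - 2) := by positivity
  have e1 : (N : ℝ) ^ (β - 2) * ((2 * (d * 2 ^ ℓ) + 3) * ((1 + η) * ((N : ℝ) ^ 2 / 2 ^ ℓ)))
      = (1 + η) * (2 * s + 3 * ((N : ℝ) ^ β / 2 ^ ℓ)) := by
    have h : (N : ℝ) ^ (β - 2) * ((2 * (d * 2 ^ ℓ) + 3) * ((1 + η) * ((N : ℝ) ^ 2 / 2 ^ ℓ)))
        = (1 + η) * (((N : ℝ) ^ (β - 2) * (N : ℝ) ^ 2) * (2 * (d * 2 ^ ℓ) + 3) / 2 ^ ℓ) := by ring
    rw [h, hNβ2]
    have h' : (N : ℝ) ^ β * (2 * (d * 2 ^ ℓ) + 3) / 2 ^ ℓ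
        = 2 * ((N : ℝ) ^ β * d) + 3 * ((N : ℝ) ^ β / 2 ^ ℓ) := by
      field_simp
    rw [h', hdN]
  have e2 : (N : ℝ) ^ (β - 2) * ((2 * (d * 2 ^ ℓ) - 3) * ((1 - η) * ((N : ℝ) ^ 2 / 2 ^ ℓ)))
      = (1 - η) * (2 * s - 3 * ((N : ℝ) ^ β / 2 ^ ℓ)) := by
    have h : (N : ℝ) ^ (β - 2) * ((2 * (d * 2 ^ ℓ) - 3) * ((1 - η) * ((N : ℝ) ^ 2 / 2 ^ ℓ)))
        = (1 - η) * (((N : ℝ) ^ (β - 2) * (N : ℝ) ^ 2) * (2 * (d * 2 ^ ℓ) - 3) / 2 ^ ℓ) := by ring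
    rw [h, hNβ2]
    have h' : (N : ℝ) ^ β * (2 * (d * 2 ^ ℓ) - 3) / 2 ^ ℓ
        = 2 * ((N : ℝ) ^ β * d) - 3 * ((N : ℝ) ^ β / 2 ^ ℓ) := by
      field_simp
    rw [h', hdN]
  constructor
  · have hR : (R N s β : ℝ) ≤ (2 * (d * 2 ^ ℓ) + 3) * ((1 + η) * ((N : ℝ) ^ 2 / 2 ^ ℓ)) := by
      have h4 : (R N s β : ℝ) ≤ ((D N d).card : ℝ) := by exact_mod_cast R_le_card
      refine h4.trans ((card_D_upper (ℓ := ℓ) hd0).trans ?_)
      exact mul_le_mul_of_nonneg_left hP1 (by positivity)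
    refine (mul_le_mul_of_nonneg_left hR hc0).trans ?_
    rw [e1]
    apply mul_le_mul_of_nonneg_left _ (by linarith)
    have : 3 * ((N : ℝ) ^ β / 2 ^ ℓ) ≤ 3 * (1 / A) := by linarith
    calc 2 * s + 3 * ((N : ℝ) ^ β / 2 ^ ℓ) ≤ 2 * s + 3 * (1 / A) := by linarith
      _ = 2 * s + 3 / A := by ring
  · have hDR : ((D N d).card : ℝ) ≤ R N s β + N := by exact_mod_cast card_D_le
    have hlow := card_D_lower (N := N) (ℓ := ℓ) (d := d) h3.le hP3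
    rcases le_or_gt 0 (2 * (d * 2 ^ ℓ) - 3) with h5 | h5
    · have h6 : (2 * (d * 2 ^ ℓ) - 3) * ((1 - η) * ((N : ℝ) ^ 2 / 2 ^ ℓ)) - N ≤ R N s β := by
        have := mul_le_mul_of_nonneg_left hP2 h5
        linarith
      have h7 := mul_le_mul_of_nonneg_left h6 hc0
      rw [mul_sub, e2, hNβ1] at h7
      refine le_trans ?_ h7
      have h8 : (1 - η) * (2 * s - 3 / A) ≤ (1 - η) * (2 * s - 3 * ((N : ℝ) ^ β / 2 ^ ℓ)) := by
        apply mul_le_mul_of_nonneg_left _ (by linarith)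
        have : 3 * ((N : ℝ) ^ β / 2 ^ ℓ) ≤ 3 * (1 / A) := by linarith
        have e : 3 * (1 / A) = 3 / A := by ring
        linarith
      linarith
    · have h6 : 2 * s - 3 / A ≤ 0 := by
        have h7 : 2 * s - 3 * ((N : ℝ) ^ β / 2 ^ ℓ) < 0 := by
          have h8 : (N : ℝ) ^ β / 2 ^ ℓ * (2 * (d * 2 ^ ℓ) - 3) < 0 :=
            mul_neg_of_pos_of_neg (by positivity) h5
          have h9 : (N : ℝ) ^ β / 2 ^ ℓ * (2 * (d * 2 ^ ℓ) - 3)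
              = 2 * ((N : ℝ) ^ β * d) - 3 * ((N : ℝ) ^ β / 2 ^ ℓ) := by
            field_simp
          rw [h9, hdN] at h8
          exact h8
        have : 3 * ((N : ℝ) ^ β / 2 ^ ℓ) ≤ 3 * (1 / A) := by linarith
        have e : 3 * (1 / A) = 3 / A := by ring
        linarith
      have h7 : (1 - η) * (2 * s - 3 / A) ≤ 0 :=
        mul_nonpos_of_nonneg_of_nonpos (by linarith) h6
      have h8 : 0 ≤ (N : ℝ) ^ (β - 1) := by positivity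
      have h9 : 0 ≤ (N : ℝ) ^ (β - 2) * (R N s β : ℝ) := by positivity
      linarith

lemma corr_of_lt {β : ℝ} (hβ : 0 < β) (hβ4 : β < 1 / 4) : Corr β := by
  intro s hs
  rw [Metric.tendsto_atTop']
  intro ε hε
  set η : ℝ := min (1 / 2) (ε / (4 * (2 * s + 3))) with hηdef
  have hη : 0 < η := by positivity
  have hη1 : η < 1 := lt_of_le_of_lt (min_le_left _ _) (by norm_num)
  have hη2 : η * (2 * s + 3) ≤ ε / 4 := by
    have h1 : η ≤ ε / (4 * (2 * s + 3)) := min_le_right _ _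
    have h2 : 0 < 2 * s + 3 := by linarith
    calc η * (2 * s + 3) ≤ ε / (4 * (2 * s + 3)) * (2 * s + 3) :=
          mul_le_mul_of_nonneg_right h1 h2.le
      _ = ε / 4 := by field_simp
  set A : ℝ := max 1 (12 / ε) with hAdef
  have hA : 1 ≤ A := le_max_left _ _
  have hA2 : 3 / A ≤ ε / 4 := by
    have h1 : 12 / ε ≤ A := le_max_right _ _
    rw [div_le_div_iff₀ (by linarith) (by norm_num)]
    rw [div_le_iff₀ hε] at h1
    linarith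
  have hA3 : 3 / A ≤ 3 := div_le_self (by norm_num) hA
  have hA0 : 0 ≤ 3 / A := by positivity
  have t : Tendsto (fun N : ℕ => (N : ℝ) ^ (β - 1)) atTop (𝓝 0) := by
    have h : Tendsto (fun N : ℕ => (N : ℝ) ^ (-(1 - β))) atTop (𝓝 0) :=
      (tendsto_rpow_neg_atTop (y := 1 - β) (by linarith)).comp tendsto_natCast_atTop_atTop
    refine h.congr ?_
    intro N
    congr 1
    ring
  have hev := (main_est hβ hβ4 hs hη hη1 hA).and
    (t.eventually (gt_mem_nhds (show (0 : ℝ) < ε / 4 by positivity)))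
  obtain ⟨N0, hN0⟩ := eventually_atTop.1 hev
  refine ⟨N0, fun N hN => ?_⟩
  obtain ⟨⟨h1, h2⟩, h3⟩ := hN0 N hN.le
  rw [Real.dist_eq, abs_lt]
  constructor
  · nlinarith
  · nlinarith

/-- **Q1 is true.**  The sequence `{2^n α}`, `α` the binary Champernowne constant, has weak pair
correlations; the limit relation holds for every `β` in `(0, 1/4)`. -/
theorem result :
    (∃ β : ℝ, 0 < β ∧ β < 1 ∧ Corr β) ∧ ∀ β : ℝ, 0 < β → β < 1 / 4 → Corr β :=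
  ⟨⟨1 / 8, by norm_num, by norm_num, corr_of_lt (by norm_num) (by norm_num)⟩,
    fun _ h1 h2 => corr_of_lt h1 h2⟩

end Pool.Agent.Results.MP_3b2897_nt.WeakPairCorrelation
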